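import Pool.Agent.NH32.LQ.Stm
import Pool.Agent.NH32.LP.Asm
import Pool.Agent.NH32.LP.Defs2

/-!
# Lipschitz spaces and `ℓ_1(Γ)`: assembly
-/

set_option autoImplicit false

namespace Pool.Agent.NH32.LQ

open Pool.Agent.H266R3.LF Pool.Agent.NH62.Lip Pool.Agent.H266R3.BN Pool.Agent.NH32.LP
open Pool.Agent.NH32.LP.Asm
open scoped ENNReal

/-- the space `ℓ_1(Γ)` -/
abbrev L1 (Γ : Type) : Type := lp (fun _ : Γ => ℝ) 1

theorem fac_bilip {F R : Type} [MetricSpace F] [MetricSpace R] (o : F) (o' : R) (φ : F → R)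
    (ψ : R → F) (hψφ : ∀ x, ψ (φ x) = x) (hφo : φ o = o') (hψo : ψ o' = o) (c : ℝ) (hc : 0 ≤ c)
    (hφ : ∀ x y, dist (φ x) (φ y) ≤ c * dist x y) (hψ : ∀ x y, dist (ψ x) (ψ y) ≤ dist x y) :
    Fac 1 c (Lip0 F o) (Lip0 R o') := by
  let A : Lip0 F o →L[ℝ] Lip0 R o' := LinearMap.mkContinuous
    { toFun := fun g => Lip0.mk (fun x => g.fn (ψ x)) (by rw [hψo]; exact g.fn_base) ‖g‖
        (norm_nonneg _) (fun x y => (g.abs_sub_le _ _).trans
          (mul_le_mul_of_nonneg_left (hψ x y) (norm_nonneg _)))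
      map_add' := fun f g => Lip0.ext fun x => rfl
      map_smul' := fun c f => Lip0.ext fun x => rfl } 1 (fun g => by
        apply Lip0.norm_le' _ (by positivity)
        intro x y
        rw [one_mul]
        exact (g.abs_sub_le _ _).trans (mul_le_mul_of_nonneg_left (hψ x y) (norm_nonneg _)))
  have hB : ∀ (g : Lip0 R o') (x y : F), |g.fn (φ x) - g.fn (φ y)| ≤ (c * ‖g‖) * dist x y := by
    intro g x y
    calc |g.fn (φ x) - g.fn (φ y)| ≤ ‖g‖ * dist (φ x) (φ y) := g.abs_sub_le _ _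
      _ ≤ ‖g‖ * (c * dist x y) := mul_le_mul_of_nonneg_left (hφ x y) (norm_nonneg _)
      _ = (c * ‖g‖) * dist x y := by ring
  let B : Lip0 R o' →L[ℝ] Lip0 F o := LinearMap.mkContinuous
    { toFun := fun g => Lip0.mk (fun x => g.fn (φ x)) (by rw [hφo]; exact g.fn_base) (c * ‖g‖)
        (by positivity) (hB g)
      map_add' := fun f g => Lip0.ext fun x => rfl
      map_smul' := fun c f => Lip0.ext fun x => rfl } c (fun g => by
        apply Lip0.norm_le' _ (by positivity)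
        exact hB g)
  refine ⟨A, B, LinearMap.mkContinuous_norm_le _ zero_le_one _,
    LinearMap.mkContinuous_norm_le _ hc _, fun g => ?_⟩
  exact Lip0.ext fun z => congrArg g.fn (hψφ z)

theorem fac_trans {a b c d : ℝ} {U V W : Type} [NormedAddCommGroup U] [NormedSpace ℝ U]
    [NormedAddCommGroup V] [NormedSpace ℝ V] [NormedAddCommGroup W] [NormedSpace ℝ W]
    (h1 : Fac a b U V) (h2 : Fac c d V W) : Fac (c * a) (b * d) U W := by
  obtain ⟨J, Q, hJ, hQ, hQJ⟩ := h1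
  obtain ⟨J', Q', hJ', hQ', hQJ'⟩ := h2
  have ha : 0 ≤ a := (norm_nonneg _).trans hJ
  have hb : 0 ≤ b := (norm_nonneg _).trans hQ
  have hc : 0 ≤ c := (norm_nonneg _).trans hJ'
  have hd : 0 ≤ d := (norm_nonneg _).trans hQ'
  refine ⟨J'.comp J, Q.comp Q', ?_, ?_, fun v => ?_⟩
  · exact (ContinuousLinearMap.opNorm_comp_le _ _).trans
      (mul_le_mul hJ' hJ (norm_nonneg _) hc)
  · exact (ContinuousLinearMap.opNorm_comp_le _ _).trans
      (mul_le_mul hQ hQ' (norm_nonneg _) hb)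
  · show Q (Q' (J' (J v))) = v
    rw [hQJ', hQJ]

/-- All finite metric spaces. -/
def AllFac (X : Type) [NormedAddCommGroup X] [NormedSpace ℝ X] (a b : ℝ) : Prop :=
  ∀ (F : Type) [MetricSpace F] [Finite F] (o : F), Fac a b (Lip0 F o) (Lip0 X 0)

theorem nontrivial_of_sep {X Γ : Type} [NormedAddCommGroup X] [Infinite Γ] {c : Γ → X}
    (hc : ∀ i j, i ≠ j → 1 ≤ ‖c i - c j‖) : Nontrivial X := by
  obtain ⟨i, j, hij⟩ := exists_pair_ne Γ
  refine ⟨c i, c j, fun h => ?_⟩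
  have := hc i j hij
  rw [h, sub_self, norm_zero] at this
  linarith

section

variable (hcongr : S_congr) (hadd : S_add) (hcard : S_card) (hpelc : S_pelc) (hnp : S_np)
  (hsel : S_sel) (hop : S_op) (hfin : S_fin) (hloc : S_loc) (hsep : S_sep) (hdense : S_dense)

include hadd hcard hpelc hop in
theorem self_li {X Γ : Type} [NormedAddCommGroup X] [NormedSpace ℝ X] [Infinite Γ] {c : Γ → X}
    (hc : ∀ i j, i ≠ j → 1 ≤ ‖c i - c j‖) : Nonempty (Lip0 X 0 ≃L[ℝ] Li Γ (Lip0 X 0)) := by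
  obtain ⟨-, -, ⟨e1⟩, -⟩ := hcard Γ
  exact hpelc Γ (Lip0 X 0) (Lip0 X 0) (cp_sep hop e1 c hc) (cp_li hadd hcard Γ (Lip0 X 0))

include hcongr hadd hcard hpelc hop hloc in
theorem emb {X Γ Z : Type} [NormedAddCommGroup X] [NormedSpace ℝ X] [Infinite Γ] [MetricSpace Z]
    (o : Z) {a b : ℝ} (hX : AllFac X a b) (hd : HasDensity X Γ) (m : ℕ × Γ → Z)
    (hm : DenseRange m) : Cp (Lip0 Z o) (Lip0 X 0) := by
  obtain ⟨-, c, hc⟩ := hd
  obtain ⟨f⟩ := self_li hadd hcard hpelc hop hc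
  obtain ⟨-, -, -, ⟨e2⟩⟩ := hcard Γ
  let g : ℕ × (ℕ × Γ) → ℕ × Γ := fun p => p.2
  have hg : Function.Surjective g := fun p => ⟨(0, p), rfl⟩
  have hmg : DenseRange (m ∘ g) := by
    have h1 : Set.range (m ∘ g) = Set.range m := hg.range_comp m
    unfold DenseRange
    rw [h1]
    exact hm
  have k3 : Cp (Lip0 Z o) (Li (Finset (ℕ × (ℕ × Γ))) (Lip0 X 0)) := by
    refine hloc Z (ℕ × (ℕ × Γ)) (Lip0 X 0) o (m ∘ g) a b hmg fun S => ?_
    have : Finite (Fs (m ∘ g) o S) := ((S.finite_toSet.image (m ∘ g)).insert o).to_subtype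
    exact hX (Fs (m ∘ g) o S) ⟨o, Set.mem_insert _ _⟩
  obtain ⟨g'⟩ := hcongr (Finset (ℕ × (ℕ × Γ))) Γ (Lip0 X 0) (Lip0 X 0) e2
    (ContinuousLinearEquiv.refl ℝ _)
  exact (k3.trans (cp_of_iso g')).trans (cp_of_iso f.symm)

include hpelc in
theorem iso_of {Γ V W : Type} [Infinite Γ] [NormedAddCommGroup V] [NormedSpace ℝ V]
    [NormedAddCommGroup W] [NormedSpace ℝ W] (f : V ≃L[ℝ] Li Γ V) (h1 : Cp V W) (h2 : Cp W V) :
    Nonempty (V ≃L[ℝ] W) := by
  obtain ⟨g⟩ := hpelc Γ W V ((cp_of_iso f.symm).trans h1) (h2.trans (cp_of_iso f))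
  exact ⟨f.trans g.symm⟩

include hfin in
theorem allFac_of_unifL1 {X : Type} [NormedAddCommGroup X] [NormedSpace ℝ X] [Nontrivial X]
    (h : UnifL1 X) : ∃ a b : ℝ, AllFac X a b := by
  obtain ⟨C, hC⟩ := h
  have hC0 : 0 ≤ C := by
    obtain ⟨w, _, _, hw, _⟩ := hC 1
    exact (norm_nonneg _).trans (hw 0)
  exact ⟨18 * C, 2 * C, fun F _ _ o => hfin X F o C hC0 hC⟩

/-- subsets of a space of density `Γ` -/
theorem subset_dense (hdense : S_dense) {X Γ : Type} [NormedAddCommGroup X] {D : Γ → X}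
    (hD : DenseRange D) (M : Set X) (o : M) : ∃ m : ℕ × Γ → M, DenseRange m := by
  have : Nonempty M := ⟨o⟩
  exact hdense X M Γ Subtype.val D isometry_subtype_coe hD

include hcongr hadd hcard hpelc hop hfin hloc in
theorem iso_l1 (hden : S_denL) (hex : S_ex) {X Γ : Type} [NormedAddCommGroup X] [NormedSpace ℝ X]
    [Infinite Γ] (hd : HasDensity X Γ) {a b : ℝ} (hX : AllFac X a b) :
    Nonempty (Lip0 X 0 ≃L[ℝ] Lip0 (L1 Γ) 0) := by
  have hdL : HasDensity (L1 Γ) Γ := hden Γ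
  have hd' := hd
  obtain ⟨⟨D, hD⟩, c, hc⟩ := hd
  have hdL' := hdL
  obtain ⟨⟨DL, hDL⟩, cL, hcL⟩ := hdL
  have := nontrivial_of_sep hcL
  obtain ⟨a', b', hL⟩ := allFac_of_unifL1 hfin (hex Γ)
  obtain ⟨f⟩ := self_li hadd hcard hpelc hop hc
  have hsur : Function.Surjective (fun p : ℕ × Γ => p.2) := fun p => ⟨(0, p), rfl⟩
  refine iso_of hpelc f ?_ ?_
  · refine emb hcongr hadd hcard hpelc hop hloc 0 hL hdL' (D ∘ fun p : ℕ × Γ => p.2) ?_
    unfold DenseRange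
    rw [hsur.range_comp D]
    exact hD
  · refine emb hcongr hadd hcard hpelc hop hloc 0 hX hd' (DL ∘ fun p : ℕ × Γ => p.2) ?_
    unfold DenseRange
    rw [hsur.range_comp DL]
    exact hDL

include hcongr hadd hcard hpelc hnp hsel hop hfin hloc hsep hdense in
/-- **Part 1.** -/
theorem part1 (hden : S_denL) (hex : S_ex) {X Γ : Type} [NormedAddCommGroup X] [NormedSpace ℝ X]
    [Infinite Γ] (hd : HasDensity X Γ) (hX : UnifL1 X) (M : Set X) (o : M) (hM : ¬ Porous M) :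
    Nonempty (Lip0 M o ≃L[ℝ] Lip0 (L1 Γ) 0) := by
  obtain ⟨c, hc⟩ := hd.2
  have := nontrivial_of_sep hc
  obtain ⟨a, b, hab⟩ := allFac_of_unifL1 hfin hX
  obtain ⟨f⟩ := (main_of hcongr hadd hcard hpelc hnp hsel hop hfin hloc hsep hdense X M o
    hM).2.2 hX
  obtain ⟨g⟩ := iso_l1 hcongr hadd hcard hpelc hop hfin hloc hden hex hd hab
  exact ⟨f.trans g⟩

include hcongr hadd hcard hpelc hnp hsel hop hfin hloc hsep hdense in
/-- **Part 2.** -/
theorem part2 (hden : S_denL) (hex : S_ex) {X Γ : Type} [NormedAddCommGroup X] [NormedSpace ℝ X]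
    [Infinite Γ] (hd : HasDensity X Γ) (e : Lip0 X 0 ≃L[ℝ] Lip0 (L1 Γ) 0) (M : Set X) (o : M)
    (hM : ¬ Porous M) : Nonempty (Lip0 M o ≃L[ℝ] Lip0 X 0) := by
  have hdL : HasDensity (L1 Γ) Γ := hden Γ
  have hdL' := hdL
  obtain ⟨⟨DL, hDL⟩, cL, hcL⟩ := hdL
  have := nontrivial_of_sep hcL
  obtain ⟨a', b', hL⟩ := allFac_of_unifL1 hfin (hex Γ)
  obtain ⟨⟨D, hD⟩, c, hc⟩ := hd
  obtain ⟨m, hm⟩ := subset_dense hdense hD M o
  have k := emb hcongr hadd hcard hpelc hop hloc o hL hdL' m hm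
  exact (main_of hcongr hadd hcard hpelc hnp hsel hop hfin hloc hsep hdense X M o
    hM).2.1.2 (isoC_of_cp (k.trans (cp_of_iso e.symm)))

include hcongr hadd hcard hpelc hop hfin hloc in
/-- **Part 3.** -/
theorem part3 (hcrit : S_crit) (hfre : S_fre) (hden : S_denL) (hex : S_ex) {X Γ : Type}
    [NormedAddCommGroup X] [NormedSpace ℝ X] [Infinite Γ] (hd : HasDensity X Γ)
    (hX : UnifLInf X)
    (h : ∀ (M : Set X) (o : M), ¬ Porous M → Nonempty (Lip0 M o ≃L[ℝ] Lip0 X 0)) :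
    Nonempty (Lip0 X 0 ≃L[ℝ] Lip0 (L1 Γ) 0) := by
  obtain ⟨c, hc⟩ := hd.2
  have := nontrivial_of_sep hc
  obtain ⟨C, hC⟩ := hcrit X h
  obtain ⟨K, hK⟩ := hX
  have hK0 : 0 ≤ K := by
    obtain ⟨T, hT⟩ := hK 1
    obtain ⟨h1, h2⟩ := hT (fun _ => 1)
    have h3 : ‖(fun _ => 1 : Fin 1 → ℝ)‖ = 1 := by
      rw [pi_norm_const, norm_one]
    rw [h3] at h1 h2
    linarith
  refine iso_l1 hcongr hadd hcard hpelc hop hfin hloc hden hex hd (a := C * 1) (b := K * C) ?_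
  intro F _ _ o
  obtain ⟨ι, hι⟩ := hfre X F K hK
  have hinj : Function.Injective ι := by
    intro x y hxy
    have h1 := (hι x y).1
    rw [hxy, sub_self, norm_zero] at h1
    exact dist_le_zero.1 h1
  let R : Set X := Set.range ι
  let φ : F → R := fun x => ⟨ι x, x, rfl⟩
  let ψ : R → F := fun r => r.2.choose
  have hψ : ∀ r : R, ι (ψ r) = r.1 := fun r => r.2.choose_spec
  have hψφ : ∀ x, ψ (φ x) = x := fun x => hinj (hψ (φ x))
  have h1 : Fac 1 K (Lip0 F o) (Lip0 R (φ o)) := by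
    refine fac_bilip o (φ o) φ ψ hψφ rfl (hψφ o) K hK0 ?_ ?_
    · intro x y
      have := (hι x y).2
      rwa [← dist_eq_norm] at this
    · intro x y
      have h2 := (hι (ψ x) (ψ y)).1
      rwa [hψ, hψ, ← dist_eq_norm] at h2
  exact fac_trans h1 (hC R (φ o) (Set.finite_range ι))

end

end Pool.Agent.NH32.LQ
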