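import Pool.Agent.NH32.LQ.Asm
import Pool.Agent.NH32.LP.J13

/-!
# Lipschitz spaces and `ℓ_1(Γ)`: the equivalences
-/

set_option autoImplicit false

namespace Pool.Agent.NH32.LQ

open Pool.Agent.H266R3.LF Pool.Agent.NH62.Lip Pool.Agent.H266R3.BN Pool.Agent.NH32.LP
open Pool.Agent.NH32.LP.Asm
open scoped ENNReal

section

variable (hcongr : S_congr) (hadd : S_add) (hcard : S_card) (hpelc : S_pelc) (hnp : S_np)
  (hsel : S_sel) (hop : S_op) (hfin : S_fin) (hloc : S_loc) (hsep : S_sep) (hdense : S_dense)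

include hcongr hadd hcard hpelc hnp hsel hop hfin hloc hsep hdense in
theorem univ_iso (hball : S_ball) {X Γ : Type} [NormedAddCommGroup X] [NormedSpace ℝ X]
    [Infinite Γ] (hd : HasDensity X Γ)
    (h : ∀ (M : Set X) (o : M), ¬ Porous M → Nonempty (Lip0 M o ≃L[ℝ] Lip0 (L1 Γ) 0)) :
    Nonempty (Lip0 X 0 ≃L[ℝ] Lip0 (L1 Γ) 0) := by
  obtain ⟨c, hc⟩ := hd.2
  have := nontrivial_of_sep hc
  obtain ⟨f⟩ := self_li hadd hcard hpelc hop hc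
  have hu : ¬ Porous (Set.univ : Set X) := hball X Set.univ 0 1 one_pos (Set.subset_univ _)
  let o : (Set.univ : Set X) := ⟨0, trivial⟩
  obtain ⟨g⟩ := h Set.univ o hu
  have h1 : Cp (Lip0 X 0) (Lip0 (Set.univ : Set X) o) :=
    cp_of_isoC (main_of hcongr hadd hcard hpelc hnp hsel hop hfin hloc hsep hdense X Set.univ o
      hu).1
  have h2 : Cp (Lip0 (Set.univ : Set X) o) (Lip0 X 0) := by
    obtain ⟨J, Q, -, -, hJQ⟩ := fac_bilip o (0 : X) Subtype.val (fun x => ⟨x, trivial⟩)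
      (fun x => rfl) rfl rfl 1 zero_le_one (fun x y => by rw [one_mul]; exact le_of_eq rfl)
      (fun x y => le_of_eq rfl)
    exact ⟨J, Q, hJQ⟩
  exact iso_of hpelc f (h1.trans (cp_of_iso g)) ((cp_of_iso g.symm).trans h2)

include hfin in
theorem allFac_of_iso (hden : S_denL) (hex : S_ex) {X Γ : Type} [NormedAddCommGroup X]
    [NormedSpace ℝ X] [Infinite Γ] (e : Lip0 X 0 ≃L[ℝ] Lip0 (L1 Γ) 0) :
    ∃ C : ℝ, ∀ (F : Type) [MetricSpace F] [Finite F] (o : F),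
      ∃ (J : Lip0 F o →L[ℝ] Lip0 X 0) (Q : Lip0 X 0 →L[ℝ] Lip0 F o),
        ‖J‖ ≤ C ∧ ‖Q‖ ≤ C ∧ ∀ f, Q (J f) = f := by
  obtain ⟨-, cL, hcL⟩ := hden Γ
  have := nontrivial_of_sep hcL
  obtain ⟨a, b, hL⟩ := allFac_of_unifL1 hfin (hex Γ)
  refine ⟨‖(e.symm : Lip0 (L1 Γ) 0 →L[ℝ] Lip0 X 0)‖ * |a| +
    |b| * ‖(e : Lip0 X 0 →L[ℝ] Lip0 (L1 Γ) 0)‖, fun F _ _ o => ?_⟩
  obtain ⟨J, Q, hJ, hQ, hQJ⟩ := hL F o
  refine ⟨(e.symm : Lip0 (L1 Γ) 0 →L[ℝ] Lip0 X 0).comp J,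
    Q.comp (e : Lip0 X 0 →L[ℝ] Lip0 (L1 Γ) 0), ?_, ?_, fun f => ?_⟩
  · calc _ ≤ ‖(e.symm : Lip0 (L1 Γ) 0 →L[ℝ] Lip0 X 0)‖ * ‖J‖ :=
          ContinuousLinearMap.opNorm_comp_le _ _
      _ ≤ ‖(e.symm : Lip0 (L1 Γ) 0 →L[ℝ] Lip0 X 0)‖ * |a| :=
          mul_le_mul_of_nonneg_left (hJ.trans (le_abs_self a)) (norm_nonneg _)
      _ ≤ _ := le_add_of_nonneg_right (by positivity)
  · calc _ ≤ ‖Q‖ * ‖(e : Lip0 X 0 →L[ℝ] Lip0 (L1 Γ) 0)‖ :=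
          ContinuousLinearMap.opNorm_comp_le _ _
      _ ≤ |b| * ‖(e : Lip0 X 0 →L[ℝ] Lip0 (L1 Γ) 0)‖ :=
          mul_le_mul_of_nonneg_right (hQ.trans (le_abs_self b)) (norm_nonneg _)
      _ ≤ _ := le_add_of_nonneg_left (by positivity)
  · show Q (e (e.symm (J f))) = f
    rw [e.apply_symm_apply, hQJ]

end

end Pool.Agent.NH32.LQ
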