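import Pool.Agent.NH32.LQ.Stm

/-!
# The density character of `c_0` (helper23)
-/

set_option autoImplicit false

namespace Pool.Agent.NH32.LQ

open scoped ENNReal ZeroAtInfty Topology
open Filter

namespace DenC

/-- a finitely supported sequence -/
noncomputable def fs (f : ℕ → ℝ) (h : {k | f k ≠ 0}.Finite) : C₀(ℕ, ℝ) where
  toFun := f
  continuous_toFun := continuous_of_discreteTopology
  zero_at_infty' := by
    rw [Filter.cocompact_eq_cofinite]
    have h1 : ∀ᶠ k in cofinite, (0 : ℝ) = f k := by
      rw [Filter.eventually_cofinite]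
      exact h.subset fun k hk h0 => hk h0.symm
    exact tendsto_const_nhds.congr' h1

theorem fs_apply (f : ℕ → ℝ) (h : {k | f k ≠ 0}.Finite) (k : ℕ) : fs f h k = f k := rfl

theorem abs_le_norm (f : C₀(ℕ, ℝ)) (k : ℕ) : |f k| ≤ ‖f‖ := by
  rw [← ZeroAtInftyContinuousMap.norm_toBCF_eq_norm]
  exact BoundedContinuousFunction.norm_coe_le_norm f.toBCF k

theorem dist_le {f g : C₀(ℕ, ℝ)} {r : ℝ} (hr : 0 ≤ r) (h : ∀ k, |f k - g k| ≤ r) : dist f g ≤ r := by
  rw [← ZeroAtInftyContinuousMap.dist_toBCF_eq_dist, BoundedContinuousFunction.dist_le hr]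
  intro k
  rw [Real.dist_eq]
  exact h k

/-- the unit vectors -/
noncomputable def un (n : ℕ) : C₀(ℕ, ℝ) :=
  fs (fun k => if k = n then 1 else 0) ((Set.finite_singleton n).subset (by
    intro k hk
    by_contra hne
    exact hk (if_neg hne)))

end DenC

open DenC

theorem denC_ok : S_denC := by
  classical
  constructor
  · obtain ⟨hA⟩ := nonempty_denumerable (ℕ →₀ ℚ)
    let e : (ℕ →₀ ℚ) ≃ ℕ := Denumerable.eqv (ℕ →₀ ℚ)
    let D : ℕ → C₀(ℕ, ℝ) := fun n => fs (fun k => ((e.symm n) k : ℝ)) (by
      refine ((e.symm n).support.finite_toSet).subset ?_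
      intro k hk
      rw [Finset.mem_coe, Finsupp.mem_support_iff]
      intro h0
      apply hk
      show ((e.symm n) k : ℝ) = 0
      rw [h0, Rat.cast_zero])
    refine ⟨D, Metric.denseRange_iff.2 fun f r hr => ?_⟩
    have h1 : Tendsto f cofinite (𝓝 0) := by
      have := f.zero_at_infty'
      rw [Filter.cocompact_eq_cofinite] at this
      exact this
    have h2 : {k | ¬ |f k| < r / 2}.Finite := by
      have h3 := (Metric.tendsto_nhds.1 h1) (r / 2) (by positivity)
      rw [Filter.eventually_cofinite] at h3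
      refine h3.subset ?_
      intro k hk hd
      apply hk
      rwa [Real.dist_eq, sub_zero] at hd
    choose q hq using fun k : ℕ => exists_rat_near (f k) (show 0 < r / 2 by positivity)
    let a : ℕ →₀ ℚ := Finsupp.onFinset h2.toFinset (fun k => if k ∈ h2.toFinset then q k else 0) (by
      intro k hk
      by_contra hne
      exact hk (if_neg hne))
    refine ⟨e a, ?_⟩
    have h4 : ∀ k, D (e a) k = ((if k ∈ h2.toFinset then q k else 0 : ℚ) : ℝ) := by
      intro k
      show ((e.symm (e a)) k : ℝ) = _
      rw [Equiv.symm_apply_apply]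
      rfl
    refine lt_of_le_of_lt (dist_le (show 0 ≤ r / 2 by positivity) fun k => ?_) (by linarith)
    rw [h4]
    by_cases hk : k ∈ h2.toFinset
    · rw [if_pos hk]
      exact (hq k).le
    · rw [if_neg hk, Rat.cast_zero, sub_zero]
      rw [Set.Finite.mem_toFinset] at hk
      have : |f k| < r / 2 := by
        by_contra hcon
        exact hk hcon
      exact this.le
  · refine ⟨un, fun i j hij => ?_⟩
    have h1 := abs_le_norm (un i - un j) i
    have h2 : (un i - un j) i = 1 := by
      rw [ZeroAtInftyContinuousMap.sub_apply]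
      show (if i = i then (1 : ℝ) else 0) - (if i = j then (1 : ℝ) else 0) = 1
      rw [if_pos rfl, if_neg hij, sub_zero]
    rw [h2, abs_one] at h1
    exact h1

end Pool.Agent.NH32.LQ
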