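import Pool.Agent.NH32.LQ.Stm

/-!
# LQ-1: the density character of `ℓ_1(Γ)`
-/

set_option autoImplicit false

namespace Pool.Agent.NH32.LQ

open scoped ENNReal
open Cardinal

namespace DenL

variable {Γ : Type}

open Classical in
/-- the element of `ℓ_1(Γ)` with the coordinates `f` -/
noncomputable def vec (f : Γ →₀ ℚ) : lp (fun _ : Γ => ℝ) 1 :=
  ∑ s ∈ f.support, lp.single 1 s ((f s : ℚ) : ℝ)

open Classical in
lemma vec_eq (f : Γ →₀ ℚ) (t : Finset Γ) (ht : f.support ⊆ t) :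
    vec f = ∑ s ∈ t, lp.single (E := fun _ : Γ => ℝ) 1 s ((f s : ℚ) : ℝ) := by
  unfold vec
  refine Finset.sum_subset ht fun s _ hs => ?_
  rw [Finsupp.notMem_support_iff.1 hs, Rat.cast_zero]
  exact lp.single_zero 1 s

open Classical in
lemma approx (x : lp (fun _ : Γ => ℝ) 1) (ε : ℝ) (hε : 0 < ε) : ∃ f : Γ →₀ ℚ, dist x (vec f) < ε := by
  have hs := lp.hasSum_single (E := fun _ : Γ => ℝ) (p := 1) ENNReal.one_ne_top x
  obtain ⟨t, ht⟩ := (hs.eventually (Metric.ball_mem_nhds x (half_pos hε))).exists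
  have hε2 : 0 < ε / (2 * ((t.card : ℝ) + 1)) := by positivity
  have hr : ∀ g : Γ, ∃ q : ℚ, |x g - q| < ε / (2 * ((t.card : ℝ) + 1)) := fun g =>
    exists_rat_near (x g) hε2
  choose r hr using hr
  let f : Γ →₀ ℚ := Finsupp.onFinset t (fun g => if g ∈ t then r g else 0) (by
    intro g hg
    by_contra h
    exact hg (if_neg h))
  have hf : ∀ g ∈ t, f g = r g := fun g hg => if_pos hg
  refine ⟨f, ?_⟩
  have h1 : dist (∑ g ∈ t, lp.single (E := fun _ : Γ => ℝ) 1 g (x g)) x < ε / 2 :=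
    Metric.mem_ball.1 ht
  have h2 : vec f = ∑ g ∈ t, lp.single (E := fun _ : Γ => ℝ) 1 g ((r g : ℚ) : ℝ) := by
    rw [vec_eq f t Finsupp.support_onFinset_subset]
    exact Finset.sum_congr rfl fun g hg => by rw [hf g hg]
  have h3 : dist (∑ g ∈ t, lp.single (E := fun _ : Γ => ℝ) 1 g (x g)) (vec f) ≤ ε / 2 := by
    rw [h2, dist_eq_norm, ← Finset.sum_sub_distrib]
    calc ‖∑ g ∈ t, (lp.single (E := fun _ : Γ => ℝ) 1 g (x g) -
          lp.single (E := fun _ : Γ => ℝ) 1 g ((r g : ℚ) : ℝ))‖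
        ≤ ∑ g ∈ t, ‖lp.single (E := fun _ : Γ => ℝ) 1 g (x g) -
          lp.single (E := fun _ : Γ => ℝ) 1 g ((r g : ℚ) : ℝ)‖ := norm_sum_le _ _
      _ ≤ ∑ _g ∈ t, ε / (2 * ((t.card : ℝ) + 1)) := by
          refine Finset.sum_le_sum fun g _ => ?_
          have h4 : lp.single (E := fun _ : Γ => ℝ) 1 g (x g) -
              lp.single (E := fun _ : Γ => ℝ) 1 g ((r g : ℚ) : ℝ) =
              lp.single (E := fun _ : Γ => ℝ) 1 g (x g - ((r g : ℚ) : ℝ)) :=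
            (lp.single_sub (E := fun _ : Γ => ℝ) 1 g (x g) ((r g : ℚ) : ℝ)).symm
          rw [h4, lp.norm_single (E := fun _ : Γ => ℝ) (p := 1) one_pos g (x g - ((r g : ℚ) : ℝ)),
            Real.norm_eq_abs]
          exact (hr g).le
      _ = t.card * (ε / (2 * ((t.card : ℝ) + 1))) := by rw [Finset.sum_const, nsmul_eq_mul]
      _ ≤ ε / 2 := by
          have hc : (0 : ℝ) ≤ t.card := Nat.cast_nonneg _
          rw [← mul_div_assoc, div_le_div_iff₀ (by positivity) (by norm_num)]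
          nlinarith
  have h5 := dist_triangle_left x (vec f) (∑ g ∈ t, lp.single (E := fun _ : Γ => ℝ) 1 g (x g))
  linarith

open Classical in
lemma sep (i j : Γ) (h : i ≠ j) :
    1 ≤ ‖lp.single (E := fun _ : Γ => ℝ) 1 i (1 : ℝ) - lp.single (E := fun _ : Γ => ℝ) 1 j (1 : ℝ)‖ := by
  have h1 := lp.norm_apply_le_norm (E := fun _ : Γ => ℝ) (p := 1) one_ne_zero
    (lp.single (E := fun _ : Γ => ℝ) 1 i (1 : ℝ) - lp.single (E := fun _ : Γ => ℝ) 1 j (1 : ℝ)) i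
  have h2 : (lp.single (E := fun _ : Γ => ℝ) 1 i (1 : ℝ) -
      lp.single (E := fun _ : Γ => ℝ) 1 j (1 : ℝ)) i = 1 := by
    rw [lp.coeFn_sub, Pi.sub_apply, lp.single_apply_self (E := fun _ : Γ => ℝ) 1 i (1 : ℝ),
      lp.single_apply_ne (E := fun _ : Γ => ℝ) 1 j (1 : ℝ) h, sub_zero]
  rw [h2, norm_one] at h1
  exact h1

lemma card_eq [Infinite Γ] : #Γ = #(Γ →₀ ℚ) := by
  rw [Cardinal.mk_finsupp_of_infinite]
  have h : #ℚ ≤ #Γ := by
    rw [Cardinal.mkRat]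
    exact Cardinal.aleph0_le_mk Γ
  exact (max_eq_left h).symm

end DenL

theorem denL_ok : S_denL := by
  classical
  intro Γ _
  obtain ⟨e⟩ := Cardinal.eq.1 (DenL.card_eq (Γ := Γ))
  refine ⟨⟨fun g => DenL.vec (e g), ?_⟩, ⟨fun g => lp.single 1 g (1 : ℝ), fun i j h => DenL.sep i j h⟩⟩
  rw [Metric.denseRange_iff]
  intro x ε hε
  obtain ⟨f, hf⟩ := DenL.approx x ε hε
  refine ⟨e.symm f, ?_⟩
  rw [Equiv.apply_symm_apply]
  exact hf

end Pool.Agent.NH32.LQ
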