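import Pool.Agent.NH32.LQ.Stm

/-!
# LQ-4: embedding of finite metric spaces
-/

set_option autoImplicit false

namespace Pool.Agent.NH32.LQ

theorem fre_ok : S_fre := by
  intro X F _ _ _ _ C hC
  obtain ⟨T, hT⟩ := hC (Nat.card F)
  let e : F ≃ Fin (Nat.card F) := Finite.equivFin F
  refine ⟨fun x => T (fun i => dist x (e.symm i)), fun x y => ?_⟩
  have hsub : T (fun i => dist x (e.symm i)) - T (fun i => dist y (e.symm i)) =
      T (fun i => dist x (e.symm i) - dist y (e.symm i)) := by
    rw [← map_sub]
    rfl
  have hnorm : ‖(fun i => dist x (e.symm i) - dist y (e.symm i) : Fin (Nat.card F) → ℝ)‖ =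
      dist x y := by
    apply le_antisymm
    · rw [pi_norm_le_iff_of_nonneg dist_nonneg]
      intro i
      rw [Real.norm_eq_abs]
      exact abs_dist_sub_le x y (e.symm i)
    · have h := norm_le_pi_norm
        (fun i => dist x (e.symm i) - dist y (e.symm i) : Fin (Nat.card F) → ℝ) (e y)
      simp only [Equiv.symm_apply_apply, dist_self, sub_zero, Real.norm_eq_abs,
        abs_of_nonneg dist_nonneg] at h
      exact h
  have h := hT (fun i => dist x (e.symm i) - dist y (e.symm i))
  simp only
  rw [hsub]
  rw [hnorm] at h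
  exact h

end Pool.Agent.NH32.LQ
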