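import Pool.Agent.NH32.LQ.Stm

/-!
# Copies of `ℓ_∞^n` in `c_0` (helper8)
-/

set_option autoImplicit false

namespace Pool.Agent.NH32.LQ

open scoped ZeroAtInfty
open Filter

namespace InfC

/-- the extension by zero of a vector to `ℕ` -/
def fn {n : ℕ} (v : Fin n → ℝ) (k : ℕ) : ℝ := if h : k < n then v ⟨k, h⟩ else 0

theorem fn_abs {n : ℕ} (v : Fin n → ℝ) (k : ℕ) : ‖fn v k‖ ≤ ‖v‖ := by
  unfold fn
  split_ifs with h
  · exact norm_le_pi_norm v ⟨k, h⟩
  · rw [norm_zero]
    exact norm_nonneg v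

/-- the element of `c_0` -/
noncomputable def emb {n : ℕ} (v : Fin n → ℝ) : C₀(ℕ, ℝ) where
  toFun := fn v
  continuous_toFun := continuous_of_discreteTopology
  zero_at_infty' := by
    rw [cocompact_eq_cofinite, Nat.cofinite_eq_atTop]
    refine (tendsto_const_nhds (x := (0 : ℝ))).congr' ?_
    filter_upwards [eventually_ge_atTop n] with k hk
    unfold fn
    rw [dif_neg (by omega)]

/-- the embedding -/
noncomputable def T (n : ℕ) : (Fin n → ℝ) →ₗ[ℝ] C₀(ℕ, ℝ) where
  toFun := emb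
  map_add' v w := by
    ext k
    show fn (v + w) k = fn v k + fn w k
    unfold fn
    split_ifs with h
    · rfl
    · rw [add_zero]
  map_smul' c v := by
    ext k
    show fn (c • v) k = c * fn v k
    unfold fn
    split_ifs with h
    · rfl
    · rw [mul_zero]

theorem norm_T (n : ℕ) (v : Fin n → ℝ) : ‖T n v‖ = ‖v‖ := by
  apply le_antisymm
  · rw [← ZeroAtInftyContinuousMap.norm_toBCF_eq_norm]
    refine (BoundedContinuousFunction.norm_le (norm_nonneg v)).2 fun k => ?_
    exact fn_abs v k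
  · refine (pi_norm_le_iff_of_nonneg (norm_nonneg _)).2 fun i => ?_
    have h1 : ‖(T n v) (i : ℕ)‖ ≤ ‖T n v‖ := by
      rw [← ZeroAtInftyContinuousMap.norm_toBCF_eq_norm]
      exact (T n v).toBCF.norm_coe_le_norm (i : ℕ)
    have h2 : (T n v) (i : ℕ) = v i := by
      show fn v i = v i
      unfold fn
      rw [dif_pos i.2]
    rwa [h2] at h1

end InfC

theorem infC_ok : S_infC := by
  refine ⟨1, fun n => ⟨InfC.T n, fun v => ?_⟩⟩
  rw [InfC.norm_T, one_mul]
  exact ⟨le_rfl, le_rfl⟩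

end Pool.Agent.NH32.LQ
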