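import Mathlib

/-!
# Lipschitz spaces and `ℓ_1(Γ)`: density characters and copies of `ℓ_∞^n` (statements)
-/

set_option autoImplicit false

namespace Pool.Agent.NH32.LQ

open scoped ENNReal ZeroAtInfty

/-- The normed space `X` has the density character `|Γ|`: there are a dense family and a
`1`-separated family, both indexed by `Γ`. -/
def HasDensity (X Γ : Type) [NormedAddCommGroup X] : Prop :=
  (∃ D : Γ → X, DenseRange D) ∧ ∃ c : Γ → X, ∀ i j, i ≠ j → 1 ≤ ‖c i - c j‖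

/-- `X` contains uniformly isomorphic copies of all `ℓ_∞^n`. -/
def UnifLInf (X : Type) [NormedAddCommGroup X] [NormedSpace ℝ X] : Prop :=
  ∃ C : ℝ, ∀ n : ℕ, ∃ T : (Fin n → ℝ) →ₗ[ℝ] X, ∀ v, ‖v‖ ≤ ‖T v‖ ∧ ‖T v‖ ≤ C * ‖v‖

def S_denL : Prop := ∀ (Γ : Type) [Infinite Γ], HasDensity (lp (fun _ : Γ => ℝ) 1) Γ

def S_denC : Prop := HasDensity C₀(ℕ, ℝ) ℕ

def S_infC : Prop := UnifLInf C₀(ℕ, ℝ)

def S_fre : Prop := ∀ (X F : Type) [NormedAddCommGroup X] [NormedSpace ℝ X] [MetricSpace F]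
  [Finite F], ∀ C : ℝ, (∀ n : ℕ, ∃ T : (Fin n → ℝ) →ₗ[ℝ] X, ∀ v, ‖v‖ ≤ ‖T v‖ ∧ ‖T v‖ ≤ C * ‖v‖) →
  ∃ ι : F → X, ∀ x y, dist x y ≤ ‖ι x - ι y‖ ∧ ‖ι x - ι y‖ ≤ C * dist x y

end Pool.Agent.NH32.LQ
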